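import Pool.Agent.Y607.PY.Main

/-!
# #PolyaOrbits cannot be approximated within `2 ^ (m ^ (1 - δ))`

Stronger form of `NoFPRAS` (for an integer alphabet an FPRAS would give `RP = NP`): even an
approximation within the factor `2 ^ (m ^ (1 - δ))`, where `m` is the degree of the permutation
group and `δ > 0` is as small as one likes, is impossible in randomised polynomial time unless
`RP = NP`.

#PolyaOrbits (`polya`) and FPRAS (`HasFPRAS`) are defined in `Pool/Agent/H49R2/PY/Defs.lean`,
`strFn` in `Pool/Agent/H527R2/SharpP.lean`; `Inst`, `Valid` and `HasApprox` are defined in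
`Pool/Agent/Y607/PY/Defs.lean`; the classes `NP`, `RP` and polynomial time are defined in
`Pool/Agent/NPC/Defs.lean` and `Pool/Agent/H579R2/Spt/Defs.lean`.

## Idea of the proof

In the construction of `NoFPRAS` (dihedral gadgets attached to random linear forms) the accuracy
parameter `N` is a large power of the size `n` of the graph of the formula.  The first moment bound
shows that with probability at least `15/16` the value is at most `2 ^ (-N)` times the threshold
`X / E` if the formula is not satisfiable, and it is at least `X / (2 E)` with probability at least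
`15/16` if the formula is satisfiable.  The degree is at most `N + 1` times a polynomial `Q` in `n`.
For `N = 2 P ^ (K + 1) + 4` with `P = 7 Q + 1` and `K + 2 ≥ 1 / δ` the degree `m` is at most
`P ^ (K + 2)`, so that `m ^ (1 - δ) ≤ P ^ (K + 1) < N / 2`.
-/

namespace Pool.Agent.Results.MP_6ec4b3_lc.SubexponentialFactor

open Pool.Agent.NPC Pool.Agent.NPC.Cnt Pool.Agent.H49R2.PY Pool.Agent.H579R2.Spt
open Pool.Agent.Y607.PY

/-- **Main theorem.** Let `k ≥ 2` be an integer and `0 < δ ≤ 1`.
(1) If #PolyaOrbits with alphabet size `k` has a randomised polynomial-time approximation within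
the factor `2 ^ (m ^ (1 - δ))`, where `m` is the degree, then `RP = NP`.
(2) An FPRAS is an approximation as in (1); so (1) contains the theorem on FPRAS.
(3) For every language `L` in `NP` there is a randomised polynomial-time reduction: the instance
`g (x, r)` is valid, and its value is at least the (rational) threshold `(T x).1 / (T x).2` if
`x ∈ L` and less than the threshold divided by `2 ^ (m ^ (1 - δ))` if `x ∉ L`, with probability at
least `15/16` over the random bits `r`, where `m` is the degree of `g (x, r)`. -/
theorem result (k : ℕ) (hk : 2 ≤ k) (δ : ℝ) (h0 : 0 < δ) (h1 : δ ≤ 1) :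
    (HasApprox (polya k) (fun m => (2 : ℝ) ^ ((m : ℝ) ^ (1 - δ))) →
      ∀ L : Set (List Bool), InRP L ↔ InNP L) ∧
    (HasFPRAS (strFn (polya k)) →
      HasApprox (polya k) (fun m => (2 : ℝ) ^ ((m : ℝ) ^ (1 - δ)))) ∧
    ∀ L : Set (List Bool), InNP L →
      ∃ (g : List Bool × List Bool → Inst) (T : List Bool → ℕ × ℕ) (A : List Bool → List Bool)
        (p : Polynomial ℕ), PolyTime A ∧ (∀ s, A (bits s) = bits (g s)) ∧
        PolyTime (fun x => bits (T x)) ∧ ∀ x R, p.eval x.length ≤ R → 0 < (T x).2 ∧
          15 * 2 ^ R ≤ 16 * {r : List Bool | r.length = R ∧ Valid (g (x, r)) ∧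
            (x ∈ L → (T x).1 ≤ (T x).2 * polya k (g (x, r))) ∧
            (x ∉ L → (2 : ℝ) ^ (((g (x, r)).1.length : ℝ) ^ (1 - δ)) *
              ((T x).2 * polya k (g (x, r))) < (T x).1)}.ncard :=
  ⟨rp_eq_np k hk δ h0 h1, of_fpras δ h1 (polya k), gap k hk δ h0 h1⟩

end Pool.Agent.Results.MP_6ec4b3_lc.SubexponentialFactor
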